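import Pool.Agent.V5helper49.IR.Stm

/-!
# Project IR (helper49), job CHE: Chebyshev's inequality
-/

set_option autoImplicit false

namespace Pool.Agent.V5helper12.IR

open Finset Pool.Agent.V5helper49.IR

theorem EB_add (p : ℕ → ℝ) : ∀ (M : ℕ) (F G : Finset ℕ → ℝ), EB p M (fun B => F B + G B) = EB p M F + EB p M G
  | 0, _, _ => rfl
  | M + 1, F, G => by
    show p M * EB p M (fun B => F (insert M B) + G (insert M B)) + (1 - p M) * EB p M (fun B => F B + G B) =
      (p M * EB p M (fun B => F (insert M B)) + (1 - p M) * EB p M F) +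
        (p M * EB p M (fun B => G (insert M B)) + (1 - p M) * EB p M G)
    rw [EB_add p M (fun B => F (insert M B)) (fun B => G (insert M B)), EB_add p M F G]
    ring

theorem EB_mul (p : ℕ → ℝ) (c : ℝ) : ∀ (M : ℕ) (F : Finset ℕ → ℝ), EB p M (fun B => c * F B) = c * EB p M F
  | 0, _ => rfl
  | M + 1, F => by
    show p M * EB p M (fun B => c * F (insert M B)) + (1 - p M) * EB p M (fun B => c * F B) =
      c * (p M * EB p M (fun B => F (insert M B)) + (1 - p M) * EB p M F)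
    rw [EB_mul p c M (fun B => F (insert M B)), EB_mul p c M F]
    ring

theorem EB_const (p : ℕ → ℝ) (c : ℝ) : ∀ (M : ℕ), EB p M (fun _ => c) = c
  | 0 => rfl
  | M + 1 => by
    show p M * EB p M (fun _ => c) + (1 - p M) * EB p M (fun _ => c) = c
    rw [EB_const p c M]
    ring

theorem EB_sum (p : ℕ → ℝ) (M : ℕ) {ι : Type} (s : Finset ι) (F : ι → Finset ℕ → ℝ) :
    EB p M (fun B => ∑ i ∈ s, F i B) = ∑ i ∈ s, EB p M (F i) := by
  classical
  induction s using Finset.induction_on with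
  | empty => simp only [sum_empty]; exact EB_const p 0 M
  | insert a s ha ih =>
    simp only [sum_insert ha]
    rw [EB_add, ih]

theorem EB_mono {p : ℕ → ℝ} (hp : ∀ k, 0 ≤ p k ∧ p k ≤ 1) : ∀ (M : ℕ) (F G : Finset ℕ → ℝ), (∀ B, F B ≤ G B) →
    EB p M F ≤ EB p M G
  | 0, _, _, h => h ∅
  | M + 1, F, G, h => by
    show p M * EB p M (fun B => F (insert M B)) + (1 - p M) * EB p M F ≤
      p M * EB p M (fun B => G (insert M B)) + (1 - p M) * EB p M G
    have h1 := EB_mono hp M (fun B => F (insert M B)) (fun B => G (insert M B)) fun B => h _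
    have h2 := EB_mono hp M F G h
    have h3 := hp M
    exact add_le_add (mul_le_mul_of_nonneg_left h1 h3.1) (mul_le_mul_of_nonneg_left h2 (by linarith))

theorem qq_nonneg {p : ℕ → ℝ} (hp : ∀ k, 0 ≤ p k ∧ p k ≤ 1) (n k : ℕ) : 0 ≤ qq p n k := by
  unfold qq
  split_ifs
  · exact (hp _).1
  · exact le_rfl

theorem cv_nonneg {p : ℕ → ℝ} (hp : ∀ k, 0 ≤ p k ∧ p k ≤ 1) (M n m : ℕ) : 0 ≤ cv p M n m := by
  unfold cv
  refine add_nonneg (sum_nonneg fun k _ => ?_) (add_nonneg ?_ ?_)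
  · exact mul_nonneg (mul_nonneg (hp k).1 (qq_nonneg hp n k)) (qq_nonneg hp m k)
  · exact mul_nonneg (hp _).1 (qq_nonneg hp _ _)
  · exact mul_nonneg (hp _).1 (qq_nonneg hp _ _)

open Classical in
/-- Job CHE. -/
theorem t_CHE (h : S_COV) : S_CHE := by
  intro p hp M L hL m hm hmL
  obtain ⟨f, hf⟩ : ∃ f : ℕ → Finset ℕ → ℝ, f = fun n B => if Zr n B then 1 else 0 := ⟨_, rfl⟩
  obtain ⟨e, he⟩ : ∃ e : ℕ → ℝ, e = fun n => EB p M (f n) := ⟨_, rfl⟩
  have hf01 : ∀ n B, f n B * f n B = f n B := by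
    intro n B
    rw [hf]
    dsimp only
    split_ifs <;> simp
  have hf0 : ∀ n B, 0 ≤ f n B := by
    intro n B
    rw [hf]
    dsimp only
    split_ifs <;> norm_num
  have he0 : ∀ n, 0 ≤ e n := by
    intro n
    rw [he]
    dsimp only
    have := EB_mono hp M (fun _ => (0 : ℝ)) (f n) (hf0 n)
    rwa [EB_const] at this
  obtain ⟨μ, hμ⟩ : ∃ μ : ℝ, μ = ∑ n ∈ L, e n := ⟨_, rfl⟩
  have hmμ : m ≤ μ := by
    rw [hμ, he, hf]
    exact hmL
  have hμ0 : 0 < μ := hm.trans_le hmμ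
  obtain ⟨C, hC⟩ : ∃ C : ℝ, C = ∑ n ∈ L, ∑ k ∈ L, cv p M n k := ⟨_, rfl⟩
  have hC0 : 0 ≤ C := by
    rw [hC]
    exact sum_nonneg fun n _ => sum_nonneg fun k _ => cv_nonneg hp M n k
  have hcov : ∀ n ∈ L, ∀ k ∈ L, EB p M (fun B => f n B * f k B) ≤ e n * e k + cv p M n k + if n = k then e n else 0 := by
    intro n hn k hk
    by_cases hnk : n = k
    · subst hnk
      simp only [hf01, if_true]
      have h1 : EB p M (fun B => f n B) = e n := by rw [he]
      rw [h1]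
      have := cv_nonneg hp M n n
      nlinarith [he0 n]
    · rw [if_neg hnk, add_zero]
      have h1 := h p hp M n k (mem_range.1 (hL hn)) (mem_range.1 (hL hk)) hnk
      rw [he, hf]
      exact h1
  have hS : ∑ n ∈ L, ∑ k ∈ L, EB p M (fun B => f n B * f k B) ≤ μ ^ 2 + C + μ := by
    have h1 := sum_le_sum fun n hn => sum_le_sum fun k hk => hcov n hn k hk
    refine h1.trans (le_of_eq ?_)
    simp only [sum_add_distrib]
    rw [← hC]
    congr 1
    · congr 1
      rw [pow_two, hμ, sum_mul_sum]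
    · rw [hμ]
      refine sum_congr rfl fun n hn => ?_
      rw [sum_ite_eq, if_pos hn]
  have hpt : ∀ B : Finset ℕ, (if ((L.filter (fun n => Zr n B)).card : ℝ) < m / 2 then (1 : ℝ) else 0) ≤
      4 / μ ^ 2 * (∑ n ∈ L, ∑ k ∈ L, f n B * f k B + ((-2 * μ) * ∑ n ∈ L, f n B + μ ^ 2)) := by
    intro B
    have hZ : ((L.filter (fun n => Zr n B)).card : ℝ) = ∑ n ∈ L, f n B := by
      rw [hf]
      simp
    rw [hZ, ← sum_mul_sum]
    obtain ⟨Z, hZ'⟩ : ∃ Z, Z = ∑ n ∈ L, f n B := ⟨_, rfl⟩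
    rw [← hZ']
    have h1 : Z * Z + ((-2 * μ) * Z + μ ^ 2) = (μ - Z) ^ 2 := by ring
    rw [h1]
    split_ifs with hlt
    · rw [div_mul_eq_mul_div, le_div_iff₀ (by positivity)]
      have h2 : μ / 2 ≤ μ - Z := by linarith
      nlinarith
    · positivity
  have h1 := EB_mono hp M _ _ hpt
  rw [EB_mul, EB_add, EB_add, EB_mul, EB_const, EB_sum, EB_sum] at h1
  have h2 : ∀ n ∈ L, EB p M (fun B => ∑ k ∈ L, f n B * f k B) = ∑ k ∈ L, EB p M (fun B => f n B * f k B) :=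
    fun n _ => EB_sum p M L fun k B => f n B * f k B
  rw [sum_congr rfl h2] at h1
  have h3 : ∑ i ∈ L, EB p M (f i) = μ := by rw [hμ, he]
  rw [h3] at h1
  rw [← hC]
  refine h1.trans ?_
  have h4 : (0 : ℝ) < 4 / μ ^ 2 := by positivity
  have h5 : 4 / μ ^ 2 * (∑ n ∈ L, ∑ k ∈ L, EB p M (fun B => f n B * f k B) + ((-2 * μ) * μ + μ ^ 2)) ≤
      4 / μ ^ 2 * (μ + C) := mul_le_mul_of_nonneg_left (by nlinarith) h4.le
  refine h5.trans ?_
  have h6 : 4 / μ ^ 2 * (μ + C) = 4 * (1 / μ + C / μ ^ 2) := by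
    field_simp
  rw [h6]
  refine mul_le_mul_of_nonneg_left (add_le_add (one_div_le_one_div_of_le hm hmμ) ?_) (by norm_num)
  exact div_le_div_of_nonneg_left hC0 (by positivity) (pow_le_pow_left₀ hm.le hmμ 2)

end Pool.Agent.V5helper12.IR
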